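import Pool.Agent.Run7.h172.Npp.Stm
import Pool.Agent.Helper44K9.FU.Eq
import Pool.Agent.Helper44K9.FU.Trig2
import Pool.Agent.Helper44K9.FU.Chb
import Pool.Agent.Helper44K9.FU.Pw

/-!
# Project NPP (helper172), piece NPP-LD1 (helper651)
-/

set_option autoImplicit false

namespace Pool.Agent.Run7.h651.NPP

open Finset Polynomial MeasureTheory Filter Topology
open Pool.Agent.H807R2.Dav (ee norm_ee)
open Pool.Agent.Helper44K9.FU (W Mul1 Rel dil S_PW S_TRIG2 S_CHB)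
open Pool.Agent.Helper44K9.FU.EqL
open Pool.Agent.Run7.h172.Npp

theorem ld1_of (hPW : S_PW) (hTR : S_TRIG2) (hCH : S_CHB) : S_LD1 := by
  classical
  obtain ⟨⟨b, hb, k₀, hk₀⟩, N₁, hN₁⟩ := hCH
  intro d K hd hK1 c hc E hEc hEv hEt
  set c₁ : ℝ := c * b / 16 with hc₁
  have hc₁0 : 0 < c₁ := by positivity
  obtain ⟨S, a, τ₁, hτ₁, h0S, hpos, ha0, hmaj⟩ := hTR K hK1 c₁ hc₁0 E hEc (by rw [hEv]; exact zero_le)
  set ε₁ : ℝ := c₁ / (∑ j ∈ S, ‖a j‖ + 1) with hε₁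
  have hε₁0 : 0 < ε₁ := by
    have : 0 ≤ ∑ j ∈ S, ‖a j‖ := sum_nonneg fun _ _ => norm_nonneg _
    positivity
  obtain ⟨C, N₀, hC1, hPWN⟩ := hPW d hd ε₁ hε₁0
  set D₀ : ℕ := ∑ j ∈ S, j.natAbs + 1 with hD₀
  set Q : ℕ := C * D₀ with hQ
  have hQ1 : 1 ≤ Q := Nat.mul_pos hC1 (by omega)
  have hCQ : C ≤ Q := Nat.le_mul_of_pos_right _ (by omega)
  obtain ⟨k₁, hk₁0, hk₁1, hk₁N0, hk₁N1⟩ : ∃ k₁ : ℕ, k₀ ≤ k₁ ∧ 1 ≤ k₁ ∧ N₀ ≤ 2 ^ k₁ ∧ N₁ ≤ 2 ^ k₁ := by
    refine ⟨k₀ + N₀ + N₁ + 1, by omega, by omega, ?_, ?_⟩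
    all_goals exact le_trans (by omega) (Nat.lt_two_pow_self (n := k₀ + N₀ + N₁ + 1)).le
  refine ⟨Q, hQ1, τ₁, hτ₁, k₁, fun k hk α W hW hnear0 hcard => ?_⟩
  have hl2 : 0 < Real.log 2 := Real.log_pos (by norm_num)
  have hk0 : (0 : ℝ) < k := by exact_mod_cast (by omega : 0 < k)
  have h2k : (2 : ℕ) ^ k₁ ≤ 2 ^ k := Nat.pow_le_pow_right (by norm_num) hk
  by_contra hnear
  -- the estimate of a good block
  have hblk : ∑ p ∈ ((Ioc (2 ^ k) (2 ^ (k + 1))).filter Nat.Prime).filter (Bad d K E τ₁ α), 1 / (p : ℝ) ≤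
      4 * c₁ / (k * Real.log 2) := by
    refine good_block hc₁0 h0S hpos ha0 hmaj (by omega) ?_ ?_
    · exact hN₁ (2 ^ k) (hk₁N1.trans h2k)
    · intro j hj hj0
      by_contra hcon
      push Not at hcon
      obtain ⟨q, hq1, hqC, a', ha'⟩ := hPWN (2 ^ k) (hk₁N0.trans h2k) (j * α) hcon.le
      refine hnear ⟨q * j.natAbs, Nat.mul_pos hq1 (Int.natAbs_pos.2 hj0), ?_, (if 0 ≤ j then a' else -a'), ?_⟩
      · rw [hQ]
        refine Nat.mul_le_mul hqC ?_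
        have : j.natAbs ≤ ∑ j ∈ S, j.natAbs := single_le_sum (f := fun j : ℤ => j.natAbs) (fun _ _ => Nat.zero_le _) hj
        omega
      · have h5 : |((q * j.natAbs : ℕ) : ℝ) * α - ((if 0 ≤ j then a' else -a' : ℤ) : ℝ)| = |q * (j * α) - a'| := by
          have h6 : ((j.natAbs : ℕ) : ℝ) = ((|j| : ℤ) : ℝ) := by
            rw [Int.abs_eq_natAbs, Int.cast_natCast]
          split_ifs with hj1
          · push_cast
            rw [h6, abs_of_nonneg hj1]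
            congr 1; ring
          · push Not at hj1
            push_cast
            rw [h6, abs_of_neg hj1]
            push_cast
            rw [show (q : ℝ) * -(j : ℝ) * α - -(a' : ℝ) = -(q * (j * α) - a') by ring, abs_neg]
        rw [h5]
        refine ha'.trans ?_
        push_cast
        have : (C : ℝ) ≤ Q := by exact_mod_cast hCQ
        gcongr
  -- lower bound for the number of primes
  have hQB : b / k ≤ ((QB k).card : ℝ) / 2 ^ k := by
    refine (hk₀ k (by omega)).trans ?_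
    have h1 : ∀ p ∈ (Ioc (2 ^ k) (2 ^ (k + 1))).filter Nat.Prime, 1 / (p : ℝ) ≤ 1 / (2 : ℝ) ^ k := by
      intro p hp
      simp only [mem_filter, mem_Ioc] at hp
      have : (2 : ℝ) ^ k ≤ p := by exact_mod_cast hp.1.1.le
      exact one_div_le_one_div_of_le (by positivity) this
    refine (sum_le_sum h1).trans ?_
    rw [sum_const, nsmul_eq_mul, mul_one_div]
    exact le_rfl
  have hWs : (W.card : ℝ) / 2 ^ (k + 1) ≤
      ∑ p ∈ ((Ioc (2 ^ k) (2 ^ (k + 1))).filter Nat.Prime).filter (Bad d K E τ₁ α), 1 / (p : ℝ) := by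
    have h1 : ∑ p ∈ W, 1 / (p : ℝ) ≤
        ∑ p ∈ ((Ioc (2 ^ k) (2 ^ (k + 1))).filter Nat.Prime).filter (Bad d K E τ₁ α), 1 / (p : ℝ) := by
      refine sum_le_sum_of_subset_of_nonneg ?_ fun _ _ _ => by positivity
      intro p hp
      rw [mem_filter]
      exact ⟨hW hp, hnear0 p hp⟩
    refine le_trans ?_ h1
    have h2 : ∀ p ∈ W, 1 / (2 : ℝ) ^ (k + 1) ≤ 1 / (p : ℝ) := by
      intro p hp
      have hp' := hW hp
      simp only [QB, mem_filter, mem_Ioc] at hp'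
      have h3 : (p : ℝ) ≤ 2 ^ (k + 1) := by exact_mod_cast hp'.1.2
      have h4 : (0 : ℝ) < p := by exact_mod_cast hp'.2.pos
      exact one_div_le_one_div_of_le h4 h3
    refine le_trans ?_ (sum_le_sum h2)
    rw [sum_const, nsmul_eq_mul, mul_one_div]
  have h2k0 : (0 : ℝ) < 2 ^ k := by positivity
  have h3 : c * (b / k) / 2 ≤ 4 * c₁ / (k * Real.log 2) := by
    calc c * (b / k) / 2 ≤ c * (((QB k).card : ℝ) / 2 ^ k) / 2 := by gcongr
      _ = (c * ((QB k).card : ℝ)) / 2 ^ (k + 1) := by rw [pow_succ]; field_simp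
      _ ≤ (W.card : ℝ) / 2 ^ (k + 1) := by gcongr
      _ ≤ _ := hWs.trans hblk
  have hl := Real.log_two_gt_d9
  rw [hc₁] at h3
  have h4 : c * (b / k) / 2 = (c * b / k) / 2 := by ring
  have h5 : 4 * (c * b / 16) / (k * Real.log 2) = (c * b / k) * (1 / (4 * Real.log 2)) := by
    field_simp
    norm_num
  rw [h4, h5] at h3
  have h6 : 0 < c * b / k := by positivity
  have h7 : 1 / (4 * Real.log 2) < 1 / 2 := by
    rw [div_lt_div_iff₀ (by positivity) (by norm_num)]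
    linarith
  nlinarith

/-- NPP-LD1 -/
theorem ld1 : S_LD1 :=
  ld1_of Pool.Agent.Helper44K9.FU.pw Pool.Agent.Helper44K9.FU.trig2 Pool.Agent.Helper44K9.FU.chb

end Pool.Agent.Run7.h651.NPP
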