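import Pool.Agent.Run7.h172.Npp.Stm

/-!
# Project NPP (helper172), piece NPP-SR (helper651): sharpness at rational points
-/

set_option autoImplicit false

namespace Pool.Agent.Run7.h651.NPP

open Finset Polynomial MeasureTheory Filter Topology
open Pool.Agent.H807R2.Dav (ee norm_ee)
open Pool.Agent.Helper44K9.FU (W Mul1 Rel dil)
open Pool.Agent.Run7.h172.Npp

lemma ee_add_int (x : ℝ) (n : ℤ) : ee (x + n) = ee x := by
  unfold ee
  rw [Complex.exp_eq_exp_iff_exists_int]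
  refine ⟨n, ?_⟩
  push_cast
  ring

/-- sums over a full period -/
lemma per_one (F : ℕ → ℂ) (q : ℕ) (hF : ∀ m, F (m + q) = F m) : ∀ n, ∑ m ∈ Ioc n (n + q), F m = ∑ m ∈ range q, F m := by
  have h0 : ∀ n, ∑ m ∈ Ioc n (n + q), F m = ∑ i ∈ range q, F (n + 1 + i) := by
    intro n
    have : Ioc n (n + q) = Ico (n + 1) (n + 1 + q) := by
      ext x; simp only [mem_Ioc, mem_Ico]; omega
    rw [this, sum_Ico_eq_sum_range]
    congr 2; omega
  have h1 : ∀ n, ∑ i ∈ range q, F (n + i) = ∑ m ∈ range q, F m := by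
    intro n
    induction n with
    | zero => simp
    | succ n ih =>
      rw [← ih]
      have h2 : ∑ i ∈ range (q + 1), F (n + i) = ∑ i ∈ range q, F (n + (i + 1)) + F (n + 0) := sum_range_succ' _ _
      have h3 : ∑ i ∈ range (q + 1), F (n + i) = ∑ i ∈ range q, F (n + i) + F (n + q) := sum_range_succ _ _
      rw [hF] at h3
      rw [h3] at h2
      have h4 := add_right_cancel h2
      rw [h4]
      exact sum_congr rfl fun i _ => by congr 1; omega
  intro n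
  rw [h0, h1]

lemma per_sum (F : ℕ → ℂ) (q : ℕ) (hF : ∀ m, F (m + q) = F m) (n : ℕ) : ∀ t : ℕ,
    ∑ m ∈ Ioc n (n + q * t), F m = t * ∑ m ∈ range q, F m := by
  intro t
  induction t with
  | zero => simp
  | succ t ih =>
    have h1 : Ioc n (n + q * (t + 1)) = Ioc n (n + q * t) ∪ Ioc (n + q * t) (n + q * t + q) := by
      rw [Ioc_union_Ioc_eq_Ioc (by omega) (by omega)]
      congr 1
      ring
    rw [h1, sum_union, ih, per_one F q hF]
    · push_cast; ring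
    · rw [Finset.disjoint_left]
      intro x hx hy
      rw [mem_Ioc] at hx hy
      omega

lemma per_low (F : ℕ → ℂ) (q : ℕ) (hq : 1 ≤ q) (hF : ∀ m, F (m + q) = F m) (hb : ∀ m, ‖F m‖ ≤ 1) (n H : ℕ) :
    ((H : ℝ) / q - 1) * ‖∑ m ∈ range q, F m‖ - q ≤ ‖∑ m ∈ Ioc n (n + H), F m‖ := by
  set S := ∑ m ∈ range q, F m with hS
  have hdm := Nat.div_add_mod H q
  have hml := Nat.mod_lt H hq
  have h1 : Ioc n (n + H) = Ioc n (n + q * (H / q)) ∪ Ioc (n + q * (H / q)) (n + H) := by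
    rw [Ioc_union_Ioc_eq_Ioc (by omega) (by omega)]
  have h2 : ∑ m ∈ Ioc n (n + H), F m = ((H / q : ℕ) : ℂ) * S + ∑ m ∈ Ioc (n + q * (H / q)) (n + H), F m := by
    rw [h1, sum_union, per_sum F q hF]
    rw [Finset.disjoint_left]
    intro x hx hy
    rw [mem_Ioc] at hx hy
    omega
  have h3 : ‖∑ m ∈ Ioc (n + q * (H / q)) (n + H), F m‖ ≤ q := by
    refine (norm_sum_le _ _).trans ((sum_le_sum fun m _ => hb m).trans ?_)
    rw [sum_const, nsmul_eq_mul, mul_one, Nat.card_Ioc]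
    have : n + H - (n + q * (H / q)) ≤ q := by omega
    exact_mod_cast this
  have h4 : ‖((H / q : ℕ) : ℂ) * S‖ = ((H / q : ℕ) : ℝ) * ‖S‖ := by
    rw [norm_mul, Complex.norm_natCast]
  have h5 : (H : ℝ) / q - 1 ≤ ((H / q : ℕ) : ℝ) := by
    have hq0 : (0 : ℝ) < q := by exact_mod_cast hq
    have h6 : (H : ℝ) < (((H / q : ℕ) : ℝ) + 1) * q := by
      have : H < (H / q + 1) * q := by
        rw [add_mul, one_mul, mul_comm (H / q) q]; omega
      exact_mod_cast this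
    rw [← div_lt_iff₀ hq0] at h6
    linarith
  have h6 := norm_sub_norm_le (((H / q : ℕ) : ℂ) * S) (-(∑ m ∈ Ioc (n + q * (H / q)) (n + H), F m))
  rw [norm_neg, sub_neg_eq_add, ← h2, h4] at h6
  have h7 := mul_le_mul_of_nonneg_right h5 (norm_nonneg S)
  linarith

/-- some character does not kill the phase -/
lemma exists_char (q : ℕ) (hq : 1 ≤ q) (ψ : ℕ → ℂ) (h1 : ∀ m, ψ m ≠ 0) :
    ∃ χ : DirichletCharacter ℂ q, ∑ m ∈ range q, χ (m : ZMod q) * ψ m ≠ 0 := by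
  have : NeZero q := ⟨by omega⟩
  by_contra hcon
  push Not at hcon
  have h2 : ∑ χ : DirichletCharacter ℂ q, ∑ m ∈ range q, χ (m : ZMod q) * ψ m = 0 :=
    sum_eq_zero fun χ _ => hcon χ
  rw [sum_comm] at h2
  have h3 : ∀ m ∈ range q, ∑ χ : DirichletCharacter ℂ q, χ (m : ZMod q) * ψ m =
      if m = 1 % q then (q.totient : ℂ) * ψ m else 0 := by
    intro m hm
    rw [mem_range] at hm
    rw [← sum_mul, DirichletCharacter.sum_characters_eq]
    have h4 : ((m : ZMod q) = 1) ↔ m = 1 % q := by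
      rw [show (1 : ZMod q) = ((1 : ℕ) : ZMod q) by simp, ZMod.natCast_eq_natCast_iff', Nat.mod_eq_of_lt hm]
    simp only [h4]
    split_ifs <;> simp
  rw [sum_congr rfl h3, sum_ite_eq' (range q) (1 % q), if_pos (mem_range.2 (Nat.mod_lt _ hq))] at h2
  have h5 : (q.totient : ℂ) ≠ 0 := by
    exact_mod_cast (Nat.totient_pos.2 hq).ne'
  exact mul_ne_zero h5 (h1 _) h2

/-- NPP-SR -/
theorem sr : S_SR := by
  intro d hd E ⟨x, hxE, hx⟩ hG
  obtain ⟨γ, hγ⟩ := QuotientAddGroup.mk_surjective x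
  set q := addOrderOf x with hq
  have hq1 : 1 ≤ q := Nat.one_le_iff_ne_zero.2 hx
  obtain ⟨a, ha⟩ : ∃ a : ℤ, (q : ℝ) * γ = a := by
    have h1 : q • x = 0 := addOrderOf_nsmul_eq_zero x
    rw [← hγ] at h1
    have h2 : (((q : ℝ) * γ : ℝ) : UnitAddCircle) = 0 := by
      rw [← nsmul_eq_mul]
      exact h1
    rw [AddCircle.coe_eq_zero_iff] at h2
    obtain ⟨n, hn⟩ := h2
    refine ⟨n, ?_⟩
    rw [← hn]
    simp
  set ψ : ℕ → ℂ := fun m => ee (γ * (m : ℝ) ^ d) with hψ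
  have hψ0 : ∀ m, ψ m ≠ 0 := fun m => by
    rw [hψ]
    exact Complex.exp_ne_zero _
  have hψq : ∀ m, ψ (m + q) = ψ m := by
    intro m
    obtain ⟨z, hz⟩ : ∃ z : ℤ, (((m + q : ℕ) : ℤ)) ^ d - (m : ℤ) ^ d = q * z := by
      have h1 : (((m + q : ℕ) : ℤ)) - (m : ℤ) ∣ (((m + q : ℕ) : ℤ)) ^ d - (m : ℤ) ^ d := sub_dvd_pow_sub_pow _ _ _
      have h2 : (((m + q : ℕ) : ℤ)) - (m : ℤ) = q := by push_cast; ring
      rw [h2] at h1
      exact h1
    have hz' : (((m + q : ℕ) : ℝ)) ^ d = (m : ℝ) ^ d + q * z := by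
      have : ((((m + q : ℕ) : ℤ) : ℝ)) ^ d - ((m : ℤ) : ℝ) ^ d = ((q : ℤ) : ℝ) * (z : ℝ) := by
        exact_mod_cast hz
      push_cast at this ⊢
      linarith
    simp only [hψ]
    rw [hz']
    have h3 : γ * ((m : ℝ) ^ d + q * z) = γ * (m : ℝ) ^ d + ((a * z : ℤ) : ℝ) := by
      push_cast
      rw [← ha]; ring
    rw [h3, ee_add_int]
  obtain ⟨χ, hχ⟩ := exists_char q hq1 ψ hψ0
  set F : ℕ → ℂ := fun m => χ (m : ZMod q) * ψ m with hF
  set S := ∑ m ∈ range q, F m with hS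
  have hS0 : 0 < ‖S‖ := norm_pos_iff.2 hχ
  have hFq : ∀ m, F (m + q) = F m := by
    intro m
    simp only [hF]
    rw [hψq]
    congr 2
    push_cast
    simp
  have hFb : ∀ m, ‖F m‖ ≤ 1 := by
    intro m
    simp only [hF]
    rw [norm_mul]
    have h1 : ‖ψ m‖ = 1 := norm_ee _
    rw [h1, mul_one]
    exact χ.norm_le_one _
  set f : ℕ → ℂ := fun n => χ (n : ZMod q) with hf
  have hfM : Mul1 f := by
    refine ⟨fun n => χ.norm_le_one _, fun a b _ => ?_⟩
    simp only [hf]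
    push_cast
    rw [map_mul]
  set P : ℝ[X] := C γ * X ^ d with hP
  have hPd : P.natDegree ≤ d := natDegree_C_mul_X_pow_le _ _
  have hPc : P.coeff d = γ := by rw [hP]; simp
  have hW : ∀ n H, W f P n H = ∑ m ∈ Ioc n (n + H), F m := by
    intro n H
    unfold W
    refine sum_congr rfl fun m _ => ?_
    simp only [hf, hF, hψ, hP]
    simp
  have hq0 : (0 : ℝ) < q := by exact_mod_cast hq1
  obtain ⟨H₀, hH₀⟩ := hG (‖S‖ / (4 * q)) (by positivity)
  obtain ⟨H₁, hH₁⟩ := exists_nat_ge (2 * q * (1 + q / ‖S‖))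
  set H := max (max H₀ H₁) 1 with hH
  have hH1 : 1 ≤ H := le_max_right _ _
  have hHr : (1 : ℝ) ≤ H := by exact_mod_cast hH1
  have hHb : 2 * q * (1 + q / ‖S‖) ≤ H := by
    refine hH₁.trans ?_
    exact_mod_cast (le_max_right _ _).trans (le_max_left _ _)
  have h1 := hH₀ f hfM H H ((le_max_left _ _).trans (le_max_left _ _)) le_rfl
  have h2 : ∀ n ∈ Icc 1 H, ‖S‖ / (2 * q) * H ≤ nSup d E f n H := by
    intro n _
    have h3 := per_low F q hq1 hFq hFb n H
    rw [← hW] at h3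
    have h4 : ‖S‖ / (2 * q) * H ≤ ((H : ℝ) / q - 1) * ‖S‖ - q := by
      have h5 : ‖S‖ + q ≤ ‖S‖ / (2 * q) * H := by
        calc ‖S‖ + q = ‖S‖ / (2 * q) * (2 * q * (1 + q / ‖S‖)) := by field_simp
          _ ≤ _ := mul_le_mul_of_nonneg_left hHb (by positivity)
      have h6 : ((H : ℝ) / q) * ‖S‖ = 2 * (‖S‖ / (2 * q) * H) := by field_simp
      rw [sub_mul, h6]
      linarith
    refine (h4.trans h3).trans ?_
    have hbdd : BddAbove (Set.range fun P : {P : ℝ[X] // P.natDegree ≤ d ∧ ((P.coeff d : ℝ) : UnitAddCircle) ∈ E} =>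
        ‖W f P.1 n H‖) := by
      refine ⟨H, ?_⟩
      rintro _ ⟨P', rfl⟩
      unfold W
      refine (norm_sum_le _ _).trans ?_
      calc ∑ m ∈ Ioc n (n + H), ‖f m * ee (P'.1.eval (m : ℝ))‖ ≤ ∑ m ∈ Ioc n (n + H), (1 : ℝ) := by
            refine sum_le_sum fun m _ => ?_
            rw [norm_mul, norm_ee, mul_one]
            exact hfM.1 m
        _ = H := by rw [sum_const, nsmul_eq_mul, mul_one, Nat.card_Ioc]; congr 1; omega
    exact le_ciSup hbdd ⟨P, hPd, by rw [hPc]; rw [show (γ : UnitAddCircle) = x from hγ]; exact hxE⟩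
  have h3 := sum_le_sum h2
  rw [sum_const, nsmul_eq_mul, Nat.card_Icc, Nat.add_sub_cancel] at h3
  have h4 := h3.trans h1
  have h5 : (H : ℝ) * (‖S‖ / (2 * q) * H) = 2 * (‖S‖ / (4 * q) * H * H) := by
    field_simp
    norm_num
  rw [h5] at h4
  have h6 : 0 < ‖S‖ / (4 * q) * H * H := by positivity
  linarith

end Pool.Agent.Run7.h651.NPP
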